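import Pool.Agent.Helper53_TrInd.Final

/-!
# MP_00e098_gt, Q2: no universal space for bounded large transfinite dimension

Let `α` be an infinite countable ordinal. A separable metrizable space of large transfinite
dimension at most `α` never contains topological copies of all compact metrizable spaces of large
transfinite dimension at most `α`. In particular there is no universal space in the class of
separable metrizable spaces `X` with `trInd X ≤ α`, and none in the class of compact metrizable
spaces with `trInd X ≤ α`.

Write `α = λ + N` with `λ` a limit ordinal. The space `Y` is the cube `[0,1]^(N+1)` together with,
for each `m`, a product of the cube with a compactum of rank `b m < λ`, in which the fibres over the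
vertices of the grid of mesh `2⁻ᵐ` are shrunk to points. An `(N+1)`-fold iterated partition whose
intersection has dimension at most `b m` must contain a vertex of that grid, and in `Z` one finds
more such pairwise disjoint intersections than there are vertices if `b` grows fast enough.
-/

namespace Pool.Agent.Results.MP_00e098_gt.NoUniversalLargeInd

open Topology TopologicalSpace Pool.Agent.Helper53_TrInd

/-- For every infinite countable ordinal `α` and every separable metrizable space `Z` with
`trInd Z ≤ α` there is a compact metrizable space `Y` with `trInd Y ≤ α` which does not embed
in `Z`. -/
theorem result (α : Ordinal.{0}) (hα : Ordinal.omega0 ≤ α) (hα' : α < Ordinal.omega 1)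
    (Z : Type) [TopologicalSpace Z] [MetrizableSpace Z] [SeparableSpace Z] (hZ : TrIndLE α Z) :
    ∃ (Y : Type) (_ : TopologicalSpace Y), CompactSpace Y ∧ MetrizableSpace Y ∧ TrIndLE α Y ∧
      ¬ ∃ e : Y → Z, IsEmbedding e :=
  no_universal α hα hα' Z hZ

end Pool.Agent.Results.MP_00e098_gt.NoUniversalLargeInd
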